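import Pool.Agent.Work.MP_b8a914_gt.C.Defs

-- merged part: Pool.Agent.Work.MP_b8a914_gt.C.A
section
set_option autoImplicit false

open Cardinal Set Filter Topology

namespace Pool.Agent.B8a914

def USC {X : Type} [TopologicalSpace X] (Ψ : X → ℕ → ℕ) : Prop :=
  ∀ n k, IsOpen {x | Ψ x n ≤ k}

def PM (X : Type) [TopologicalSpace X] : Prop :=
  ∀ Ψ : X → ℕ → ℕ, USC Ψ → ∃ g : ℕ → ℕ, ∀ x, ∃ n, Ψ x n ≤ g n

def Bdd (κ : Cardinal.{0}) {X : Type} (Ψ : X → ℕ → ℕ) : Prop :=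
  ∃ (ι : Type) (G : ι → ℕ → ℕ), #ι ≤ κ ∧ ∀ x, ∃ i, ∀ n, Ψ x n ≤ G i n

section
variable {X Z : Type} [TopologicalSpace X] [TopologicalSpace Z]

theorem usc_of_continuous {Ψ : X → ℕ → ℕ} (h : Continuous Ψ) : USC Ψ := by
  intro n k
  have h1 : Continuous fun x => Ψ x n := (continuous_apply n).comp h
  exact (isOpen_discrete {m : ℕ | m ≤ k}).preimage h1

theorem USC.comp {Ψ : Z → ℕ → ℕ} (h : USC Ψ) {f : X → Z} (hf : Continuous f) :
    USC (fun x => Ψ (f x)) := fun n k => (h n k).preimage hf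

theorem IsMenger.pm (h : IsMenger X) : PM X := by
  intro Ψ hΨ
  obtain ⟨V, hV, hc⟩ := h (fun n => range fun k => {x | Ψ x n ≤ k})
    (by rintro n u ⟨k, rfl⟩; exact hΨ n k)
    (by
      intro n
      refine eq_univ_of_forall fun x => ⟨_, ⟨Ψ x n, rfl⟩, ?_⟩
      simp)
  have hb : ∀ n, ∃ b : ℕ, ∀ x ∈ ⋃₀ V n, Ψ x n ≤ b := by
    intro n
    have hk : ∀ v : V n, ∃ k, (v : Set X) = {x | Ψ x n ≤ k} := fun v => by
      obtain ⟨k, hk⟩ := (hV n).1 v.2
      exact ⟨k, hk.symm⟩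
    choose k hk using hk
    have : Finite (V n) := (hV n).2
    obtain ⟨b, hb⟩ := (Set.finite_range k).bddAbove
    refine ⟨b, fun x hx => ?_⟩
    obtain ⟨v, hv, hxv⟩ := hx
    have h1 := hk ⟨v, hv⟩
    have h2 : Ψ x n ≤ k ⟨v, hv⟩ := by
      have : x ∈ {x | Ψ x n ≤ k ⟨v, hv⟩} := h1 ▸ hxv
      exact this
    exact h2.trans (hb ⟨_, rfl⟩)
  choose g hg using hb
  refine ⟨g, fun x => ?_⟩
  have hx : x ∈ ⋃ n, ⋃₀ V n := hc ▸ mem_univ x
  obtain ⟨n, hn⟩ := mem_iUnion.1 hx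
  exact ⟨n, hg n x hn⟩

theorem exists_usc_of_covers [SecondCountableTopology X] (U : ℕ → Set (Set X))
    (hU : ∀ n, ∀ u ∈ U n, IsOpen u) (hc : ∀ n, ⋃₀ U n = Set.univ) :
    ∃ Ψ : X → ℕ → ℕ, USC Ψ ∧ ∀ g : ℕ → ℕ, ∃ V : ℕ → Set (Set X),
      (∀ n, V n ⊆ U n ∧ (V n).Finite) ∧ ∀ x n, Ψ x n ≤ g n → x ∈ ⋃₀ V n := by
  classical
  have h1 : ∀ n, ∃ e : ℕ → Set X, (∀ k, e k ∈ U n ∨ e k = ∅) ∧ ∀ x, ∃ k, x ∈ e k := by
    intro n
    obtain ⟨T, hT, hTU, hTc⟩ := TopologicalSpace.isOpen_sUnion_countable (U n) (hU n)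
    obtain ⟨e, he⟩ := (hT.insert ∅).exists_eq_range (insert_nonempty _ _)
    refine ⟨e, fun k => ?_, fun x => ?_⟩
    · have : e k ∈ insert ∅ T := he ▸ mem_range_self k
      rcases this with h | h
      · exact Or.inr h
      · exact Or.inl (hTU h)
    · have hx : x ∈ ⋃₀ T := by rw [hTc, hc n]; exact mem_univ x
      obtain ⟨t, ht, hxt⟩ := hx
      have : t ∈ range e := he ▸ mem_insert_of_mem _ ht
      obtain ⟨k, rfl⟩ := this
      exact ⟨k, hxt⟩
  choose e he hx using h1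
  refine ⟨fun x n => Nat.find (hx n x), fun n k => ?_, fun g => ?_⟩
  · have : {x | Nat.find (hx n x) ≤ k} = ⋃ j ∈ Iic k, e n j := by
      ext x
      simp only [mem_ofPred_eq, Nat.find_le_iff, mem_iUnion, mem_Iic, exists_prop]
    rw [this]
    refine isOpen_biUnion fun j _ => ?_
    rcases he n j with h | h
    · exact hU n _ h
    · rw [h]; exact isOpen_empty
  · refine ⟨fun n => (e n '' Iic (g n)) ∩ U n, fun n => ⟨inter_subset_right,
      ((finite_Iic _).image _).inter_of_left _⟩, fun x n hxn => ?_⟩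
    have h2 := Nat.find_spec (hx n x)
    refine ⟨e n (Nat.find (hx n x)), ⟨⟨_, hxn, rfl⟩, ?_⟩, h2⟩
    rcases he n (Nat.find (hx n x)) with h | h
    · exact h
    · rw [h] at h2; exact absurd h2 (notMem_empty x)

theorem PM.isMenger [SecondCountableTopology X] (h : PM X) : IsMenger X := by
  intro U hU hc
  obtain ⟨Ψ, hΨ, hV⟩ := exists_usc_of_covers U hU hc
  obtain ⟨g, hg⟩ := h Ψ hΨ
  obtain ⟨V, hV1, hV2⟩ := hV g
  refine ⟨V, hV1, eq_univ_of_forall fun x => ?_⟩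
  obtain ⟨n, hn⟩ := hg x
  exact mem_iUnion.2 ⟨n, hV2 x n hn⟩

theorem PM.of_surj (h : PM X) {f : X → Z} (hf : Continuous f) (hs : Function.Surjective f) :
    PM Z := by
  intro Ψ hΨ
  obtain ⟨g, hg⟩ := h _ (hΨ.comp hf)
  refine ⟨g, fun z => ?_⟩
  obtain ⟨x, rfl⟩ := hs z
  exact hg x

theorem PM.of_two {W : Type} [TopologicalSpace W] (hX : PM X) (hW : PM W) {f : X → Z} {f' : W → Z}
    (hf : Continuous f) (hf' : Continuous f') (hs : ∀ z, (∃ x, f x = z) ∨ ∃ w, f' w = z) :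
    PM Z := by
  intro Ψ hΨ
  obtain ⟨g, hg⟩ := hX _ (hΨ.comp hf)
  obtain ⟨g', hg'⟩ := hW _ (hΨ.comp hf')
  refine ⟨fun n => max (g n) (g' n), fun z => ?_⟩
  rcases hs z with ⟨x, rfl⟩ | ⟨w, rfl⟩
  · obtain ⟨n, hn⟩ := hg x
    exact ⟨n, hn.trans (le_max_left _ _)⟩
  · obtain ⟨n, hn⟩ := hg' w
    exact ⟨n, hn.trans (le_max_right _ _)⟩

theorem exists_cyl {O : Set (ℕ → ℕ)} (hO : IsOpen O) {f : ℕ → ℕ} (hf : f ∈ O) :
    ∃ m, ∀ h : ℕ → ℕ, (∀ i < m, h i = f i) → h ∈ O := by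
  obtain ⟨I, u, hu, hI⟩ := isOpen_pi_iff.1 hO f hf
  obtain ⟨b, hb⟩ := I.finite_toSet.bddAbove
  refine ⟨b + 1, fun h hh => hI fun i hi => ?_⟩
  rw [hh i (Nat.lt_succ_of_le (hb hi))]
  exact (hu i hi).2

theorem isOpen_cyl (f : ℕ → ℕ) (m : ℕ) : IsOpen {h : ℕ → ℕ | ∀ i < m, h i = f i} := by
  have : {h : ℕ → ℕ | ∀ i < m, h i = f i} = ⋂ i ∈ Iio m, (fun h : ℕ → ℕ => h i) ⁻¹' {f i} := by
    ext h; simp
  rw [this]
  exact (finite_Iio m).isOpen_biInter fun i _ =>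
    (isOpen_discrete _).preimage (continuous_apply i)

theorem isCompact_below (g : ℕ → ℕ) : IsCompact {f : ℕ → ℕ | ∀ n, f n ≤ g n} := by
  have : {f : ℕ → ℕ | ∀ n, f n ≤ g n} = Set.pi univ fun i => Iic (g i) := by
    ext f; simp [Pi.le_def]
  rw [this]
  exact isCompact_univ_pi fun i => (finite_Iic _).isCompact

theorem tube {O : Set (ℕ → ℕ)} (hO : IsOpen O) {g : ℕ → ℕ}
    (hg : ∀ f : ℕ → ℕ, (∀ n, f n ≤ g n) → f ∈ O) :
    ∃ m, ∀ h : ℕ → ℕ, (∀ i < m, h i ≤ g i) → h ∈ O := by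
  classical
  have h1 : ∀ f : ℕ → ℕ, ∃ m, (∀ n, f n ≤ g n) → ∀ h : ℕ → ℕ, (∀ i < m, h i = f i) → h ∈ O := by
    intro f
    by_cases hf : ∀ n, f n ≤ g n
    · obtain ⟨m, hm⟩ := exists_cyl hO (hg f hf)
      exact ⟨m, fun _ => hm⟩
    · exact ⟨0, fun h => absurd h hf⟩
  choose m hm using h1
  obtain ⟨t, ht, hc⟩ := (isCompact_below g).elim_nhds_subcover
    (fun f => {h : ℕ → ℕ | ∀ i < m f, h i = f i})
    (fun f _ => (isOpen_cyl f (m f)).mem_nhds fun _ _ => rfl)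
  refine ⟨t.sup m, fun h hh => ?_⟩
  have h2 : (fun i => if i < t.sup m then h i else 0) ∈ {f : ℕ → ℕ | ∀ n, f n ≤ g n} := by
    intro n
    by_cases hn : n < t.sup m
    · simpa [hn] using hh n hn
    · simp [hn]
  obtain ⟨f, hft, hf⟩ := mem_iUnion₂.1 (hc h2)
  refine hm f (ht f hft) h fun i hi => ?_
  have h3 : i < t.sup m := lt_of_lt_of_le hi (Finset.le_sup (f := m) hft)
  have h4 := hf i hi
  simpa [h3] using h4

def down {X : Type} (Ψ : X → ℕ → ℕ) : Set (ℕ → ℕ) := {f | ∃ x, ∀ n, f n ≤ Ψ x n}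

theorem PM.down (hX : PM X) {Ψ : X → ℕ → ℕ} (hΨ : USC Ψ) : PM (down Ψ) := by
  classical
  intro Φ hΦ
  have hO : ∀ n k, ∃ O : Set (ℕ → ℕ), IsOpen O ∧ ∀ f : B8a914.down Ψ, f.1 ∈ O ↔ Φ f n ≤ k := by
    intro n k
    obtain ⟨O, hO, hOe⟩ := isOpen_induced_iff.1 (hΦ n k)
    refine ⟨O, hO, fun f => ?_⟩
    have : f ∈ Subtype.val ⁻¹' O ↔ f ∈ {x | Φ x n ≤ k} := by rw [hOe]
    exact this
  choose O hO hOe using hO
  let P : X → ℕ → ℕ → Prop := fun x n k =>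
    ∀ f : B8a914.down Ψ, (∀ i, f.1 i ≤ Ψ x i) → Φ f n ≤ k
  have hex : ∀ x n, ∃ k, P x n k := by
    intro x n
    obtain ⟨t, ht⟩ := (isCompact_below (Ψ x)).elim_finite_subcover (O n) (hO n) (by
      intro f hf
      exact mem_iUnion.2 ⟨_, (hOe n _ ⟨f, x, hf⟩).2 le_rfl⟩)
    refine ⟨t.sup id, fun f hf => ?_⟩
    obtain ⟨j, hj, hfj⟩ := mem_iUnion₂.1 (ht hf)
    exact ((hOe n j f).1 hfj).trans (Finset.le_sup (f := id) hj)
  have hop : ∀ n k, IsOpen {x | P x n k} := by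
    intro n k
    refine isOpen_iff_mem_nhds.2 fun x hx => ?_
    obtain ⟨m, hm⟩ := tube (hO n k) (g := Ψ x)
      (fun f hf => (hOe n k ⟨f, x, hf⟩).2 (hx ⟨f, x, hf⟩ hf))
    have h1 : IsOpen (⋂ i ∈ Iio m, {x' | Ψ x' i ≤ Ψ x i}) :=
      (finite_Iio m).isOpen_biInter fun i _ => hΨ i _
    refine mem_of_superset (h1.mem_nhds (by simp)) fun x' hx' => ?_
    intro f hf
    refine (hOe n k f).1 (hm _ fun i hi => (hf i).trans ?_)
    exact mem_iInter₂.1 hx' i hi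
  obtain ⟨g, hg⟩ := hX (fun x n => Nat.find (hex x n)) (by
    intro n k
    have : {x | Nat.find (hex x n) ≤ k} = {x | P x n k} := by
      ext x
      simp only [mem_ofPred_eq, Nat.find_le_iff]
      exact ⟨fun ⟨j, hj, h⟩ f hf => (h f hf).trans hj, fun h => ⟨k, le_rfl, h⟩⟩
    rw [this]
    exact hop n k)
  refine ⟨g, fun f => ?_⟩
  obtain ⟨x, hx⟩ := f.2
  obtain ⟨n, hn⟩ := hg x
  exact ⟨n, (Nat.find_spec (hex x n) f hx).trans hn⟩

end

theorem exists_dom : ∃ D : Set (ℕ → ℕ),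
    (∀ g : ℕ → ℕ, ∃ f ∈ D, ∀ᶠ n in atTop, g n ≤ f n) ∧ #D = dominatingNumber := by
  have : dominatingNumber ∈ {c | ∃ D : Set (ℕ → ℕ),
      (∀ g : ℕ → ℕ, ∃ f ∈ D, ∀ᶠ n in atTop, g n ≤ f n) ∧ #D = c} :=
    csInf_mem ⟨_, univ, fun g => ⟨g, mem_univ _, Eventually.of_forall fun _ => le_rfl⟩, rfl⟩
  exact this

theorem not_dom {ι : Type} (hι : #ι < dominatingNumber) (f : ι → ℕ → ℕ) :
    ∃ g : ℕ → ℕ, ∀ i, ∀ m, ∃ n, m ≤ n ∧ f i n < g n := by
  by_contra hcon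
  push Not at hcon
  have h1 : dominatingNumber ≤ #(range f) := by
    refine csInf_le' ⟨range f, fun g => ?_, rfl⟩
    obtain ⟨i, m, hm⟩ := hcon g
    exact ⟨f i, mem_range_self i, eventually_atTop.2 ⟨m, hm⟩⟩
  exact absurd (h1.trans mk_range_le) (not_le.2 hι)

theorem aleph0_lt_dom : ℵ₀ < dominatingNumber := by
  by_contra hcon
  obtain ⟨D, hD, hc⟩ := exists_dom
  have h1 : D.Countable := by
    rw [← le_aleph0_iff_set_countable, hc]; exact not_lt.1 hcon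
  obtain ⟨f0, hf0, -⟩ := hD 0
  obtain ⟨e, he⟩ := h1.exists_eq_range ⟨f0, hf0⟩
  obtain ⟨f, hf, hfg⟩ := hD fun n => (Finset.range (n + 1)).sup (fun i => e i n) + 1
  rw [he] at hf
  obtain ⟨i, rfl⟩ := hf
  obtain ⟨n, hn1, hn2⟩ := (hfg.and (eventually_ge_atTop i)).exists
  have : e i n ≤ (Finset.range (n + 1)).sup (fun i => e i n) :=
    Finset.le_sup (f := fun i => e i n) (Finset.mem_range.2 (Nat.lt_succ_of_le hn2))
  omega

theorem exists_ptdom : ∃ (ι : Type) (G : ι → ℕ → ℕ), #ι = dominatingNumber ∧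
    ∀ g : ℕ → ℕ, ∃ i, ∀ n, g n ≤ G i n := by
  obtain ⟨D, hD, hc⟩ := exists_dom
  refine ⟨D × ℕ, fun p n => p.1.1 n + p.2, ?_, fun g => ?_⟩
  · rw [mk_prod, lift_id, lift_id, hc, mk_nat]
    exact mul_eq_left aleph0_lt_dom.le aleph0_lt_dom.le aleph0_ne_zero
  · obtain ⟨f, hf, hfg⟩ := hD g
    obtain ⟨m, hm⟩ := eventually_atTop.1 hfg
    refine ⟨(⟨f, hf⟩, (Finset.range m).sup g), fun n => ?_⟩
    by_cases hn : m ≤ n
    · exact (hm n hn).trans (Nat.le_add_right _ _)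
    · exact (Finset.le_sup (f := g) (Finset.mem_range.2 (not_le.1 hn))).trans (Nat.le_add_left _ _)

theorem pm_small {X : Type} [TopologicalSpace X] (h : #X < dominatingNumber) : PM X := by
  intro Ψ _
  obtain ⟨g, hg⟩ := not_dom h Ψ
  refine ⟨g, fun x => ?_⟩
  obtain ⟨n, -, hn⟩ := hg x 0
  exact ⟨n, hn.le⟩

theorem Bdd.mono {κ κ' : Cardinal.{0}} {X : Type} {Ψ : X → ℕ → ℕ} (h : Bdd κ Ψ) (hk : κ ≤ κ') :
    Bdd κ' Ψ := by
  obtain ⟨ι, G, h1, h2⟩ := h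
  exact ⟨ι, G, h1.trans hk, h2⟩

/-- all Menger subsets of the Baire space are bounded by `κ` functions -/
def AllBdd (κ : Cardinal.{0}) : Prop :=
  ∀ Y : Set (ℕ → ℕ), IsMenger Y → Bdd κ (fun y : Y => y.1)

theorem AllBdd.usc {κ : Cardinal.{0}} (h : AllBdd κ) {X : Type} [TopologicalSpace X] (hX : PM X)
    {Ψ : X → ℕ → ℕ} (hΨ : USC Ψ) : Bdd κ Ψ := by
  obtain ⟨ι, G, h1, h2⟩ := h (down Ψ) (hX.down hΨ).isMenger
  exact ⟨ι, G, h1, fun x => h2 ⟨Ψ x, x, fun _ => le_rfl⟩⟩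

/-- monotone hull -/
def hull (f : ℕ → ℕ) (n : ℕ) : ℕ := (Finset.range (n + 1)).sup f

theorem le_hull (f : ℕ → ℕ) {i n : ℕ} (h : i ≤ n) : f i ≤ hull f n :=
  Finset.le_sup (f := f) (Finset.mem_range.2 (Nat.lt_succ_of_le h))

theorem hull_mono (f : ℕ → ℕ) : Monotone (hull f) := fun _ _ h =>
  Finset.sup_mono (Finset.range_subset_range.2 (Nat.succ_le_succ h))

theorem continuous_hull : Continuous (hull : (ℕ → ℕ) → ℕ → ℕ) := by
  refine continuous_pi fun n => ?_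
  refine (IsLocallyConstant.iff_continuous _).1 ((IsLocallyConstant.iff_exists_open _).2 fun f => ?_)
  refine ⟨_, isOpen_cyl f (n + 1), fun _ _ => rfl, fun h hh => ?_⟩
  exact Finset.sup_congr rfl fun i hi => hh i (Finset.mem_range.1 hi)

/-- some Menger subset of the Baire space dominates by pairs -/
def D2 : Prop :=
  ∃ Y : Set (ℕ → ℕ), IsMenger Y ∧ ∀ h : ℕ → ℕ, ∃ y₁ ∈ Y, ∃ y₂ ∈ Y, ∀ n, h n ≤ y₁ n ∨ h n ≤ y₂ n

end Pool.Agent.B8a914
end

-- merged part: Pool.Agent.Work.MP_b8a914_gt.C.B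
section
set_option autoImplicit false

open Cardinal Set Filter Topology

namespace Pool.Agent.B8a914

/-- gap induction -/
theorem gap_step {κ : Cardinal.{0}} (hκ : ℵ₀ ≤ κ) {X : Type} [TopologicalSpace X]
    (hB : ∀ Ψ : X → ℕ → ℕ, USC Ψ → Bdd κ Ψ) (C : ℕ → X → Set ℕ) (hfin : ∀ j x, (C j x).Finite)
    (hmono : ∀ j k x, j ≤ k → C j x ⊆ C k x) (hop : ∀ j l, IsOpen {x | l ∉ C j x}) (m : ℕ) :
    ∃ (ι : Type) (H : ι → ℕ → ℕ), #ι ≤ κ ∧ ∀ F : Finset X, F.card = m →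
      ∃ i, ∀ j, ∃ l, j ≤ l ∧ l ≤ H i j ∧ ∀ x ∈ F, l ∉ C j x := by
  classical
  induction m with
  | zero =>
    refine ⟨Unit, fun _ j => j, ?_, fun F hF => ⟨(), fun j => ⟨j, le_rfl, le_rfl, ?_⟩⟩⟩
    · simpa using one_le_aleph0.trans hκ
    · rw [Finset.card_eq_zero.1 hF]; simp
  | succ m ih =>
    obtain ⟨ι, H, hι, hH⟩ := ih
    have hex : ∀ (i : ι) (x : X) (j : ℕ), ∃ k, j ≤ k ∧ ∀ l, k ≤ l → l ≤ H i k → l ∉ C j x := by
      intro i x j
      obtain ⟨b, hb⟩ := (hfin j x).bddAbove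
      refine ⟨max j (b + 1), le_max_left _ _, fun l hl _ hlc => ?_⟩
      have := hb hlc
      have h2 := le_max_right j (b + 1)
      omega
    have husc : ∀ i, USC (fun x j => Nat.find (hex i x j)) := by
      intro i j k
      refine isOpen_iff_mem_nhds.2 fun x hx => ?_
      have hs := Nat.find_spec (hex i x j)
      set k0 := Nat.find (hex i x j) with hk0
      have h1 : IsOpen (⋂ l ∈ Icc k0 (H i k0), {x' | l ∉ C j x'}) :=
        (finite_Icc _ _).isOpen_biInter fun l _ => hop j l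
      refine mem_of_superset (h1.mem_nhds (mem_iInter₂.2 fun l hl => hs.2 l hl.1 hl.2))
        fun x' hx' => ?_
      have h2 : Nat.find (hex i x' j) ≤ k0 :=
        Nat.find_min' _ ⟨hs.1, fun l h3 h4 => mem_iInter₂.1 hx' l ⟨h3, h4⟩⟩
      exact h2.trans hx
    choose J G hJ hG using fun i => hB _ (husc i)
    refine ⟨Σ i, J i, fun p j => hull (H p.1) (G p.1 p.2 j), ?_, fun F hF => ?_⟩
    · rw [mk_sigma]
      calc (Cardinal.sum fun i => #(J i)) ≤ Cardinal.sum fun _ : ι => κ := sum_le_sum _ _ hJ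
        _ = #ι * κ := by simp
        _ ≤ κ * κ := mul_le_mul_left hι κ
        _ = κ := mul_eq_self hκ
    · obtain ⟨x, F', hx, rfl, hF'⟩ := Finset.card_eq_succ.1 hF
      obtain ⟨i, hi⟩ := hH F' hF'
      obtain ⟨a, ha⟩ := hG i x
      refine ⟨⟨i, a⟩, fun j => ?_⟩
      have hs := Nat.find_spec (hex i x j)
      obtain ⟨l, hl1, hl2, hl3⟩ := hi (Nat.find (hex i x j))
      refine ⟨l, hs.1.trans hl1, hl2.trans (le_hull _ (ha j)), fun y hy => ?_⟩
      rcases Finset.mem_insert.1 hy with rfl | hy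
      · exact hs.2 l hl1 hl2
      · exact fun hc => hl3 y hy (hmono _ _ _ hs.1 hc)

theorem gap {κ : Cardinal.{0}} (hκ : ℵ₀ ≤ κ) (hd : κ < dominatingNumber) {X : Type}
    [TopologicalSpace X]
    (hB : ∀ Ψ : X → ℕ → ℕ, USC Ψ → Bdd κ Ψ) (C : ℕ → X → Set ℕ) (hfin : ∀ j x, (C j x).Finite)
    (hmono : ∀ j k x, j ≤ k → C j x ⊆ C k x) (hop : ∀ j l, IsOpen {x | l ∉ C j x}) :
    ∃ h : ℕ → ℕ, ∀ (F : Finset X) (n : ℕ), ∃ j l, n ≤ j ∧ l ≤ h j ∧ ∀ x ∈ F, l ∉ C j x := by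
  choose ι H hι hH using gap_step hκ hB C hfin hmono hop
  have hc : #(Σ m, ι m) < dominatingNumber := by
    refine lt_of_le_of_lt ?_ hd
    rw [mk_sigma]
    calc (Cardinal.sum fun m => #(ι m)) ≤ Cardinal.sum fun _ : ℕ => κ := sum_le_sum _ _ hι
      _ = ℵ₀ * κ := by simp
      _ ≤ κ * κ := mul_le_mul_left hκ κ
      _ = κ := mul_eq_self hκ
  obtain ⟨h, hh⟩ := not_dom hc fun p => H p.1 p.2
  refine ⟨h, fun F n => ?_⟩
  obtain ⟨i, hi⟩ := hH F.card F rfl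
  obtain ⟨j, hj1, hj2⟩ := hh ⟨_, i⟩ n
  obtain ⟨l, -, hl2, hl3⟩ := hi j
  exact ⟨j, l, hj1, hl2.trans hj2.le, hl3⟩

def fr (p q : ℕ × OnePoint ℕ) : Prop := p = q ∨ (p.2 = OnePoint.infty ∧ q.2 = OnePoint.infty)

def pt (n k : ℕ) : Fan := Quot.mk _ (n, (k : OnePoint ℕ))

def top : Fan := Quot.mk _ (0, OnePoint.infty)

theorem mk_infty (n : ℕ) : (Quot.mk _ (n, OnePoint.infty) : Fan) = top :=
  Quot.sound (Or.inr ⟨rfl, rfl⟩)

theorem fan_cases (p : Fan) : p = top ∨ ∃ n k, p = pt n k := by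
  induction p using Quot.ind with
  | mk q =>
    obtain ⟨n, z⟩ := q
    induction z using OnePoint.rec with
    | infty => exact Or.inl (mk_infty n)
    | coe k => exact Or.inr ⟨n, k, rfl⟩

/-- a function on the fan from its values -/
def fanLift {α : Type} (a : α) (b : ℕ → ℕ → α) : Fan → α :=
  Quot.lift (fun p : ℕ × OnePoint ℕ => OnePoint.elim p.2 a (b p.1)) (by
    rintro ⟨n, z⟩ ⟨n', z'⟩ (h | ⟨h1, h2⟩)
    · rw [h]
    · simp only at h1 h2
      subst h1 h2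
      rfl)

theorem fanLift_top {α : Type} (a : α) (b : ℕ → ℕ → α) : fanLift a b top = a := rfl

theorem fanLift_pt {α : Type} (a : α) (b : ℕ → ℕ → α) (n k : ℕ) : fanLift a b (pt n k) = b n k :=
  rfl

theorem continuous_fanLift {α : Type} [TopologicalSpace α] (a : α) (b : ℕ → ℕ → α)
    (h : ∀ n, Tendsto (b n) atTop (𝓝 a)) : Continuous (fanLift a b) := by
  refine continuous_quot_lift _ (continuous_prod_of_discrete_left.2 fun n => ?_)
  exact (OnePoint.continuous_iff_from_nat _).2 (h n)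

theorem tendsto_pt (n : ℕ) : Tendsto (pt n) atTop (𝓝 top) := by
  have h1 : Continuous fun z : OnePoint ℕ => (Quot.mk _ (n, z) : Fan) :=
    continuous_quot_mk.comp (Continuous.prodMk_right n)
  have h2 : Tendsto (fun k : ℕ => (k : OnePoint ℕ)) atTop (𝓝 OnePoint.infty) := by
    have := OnePoint.tendsto_coe_infty (X := ℕ)
    rwa [coclosedCompact_eq_cocompact, cocompact_eq_cofinite, Nat.cofinite_eq_atTop] at this
  have h3 := (h1.tendsto OnePoint.infty).comp h2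
  rw [mk_infty] at h3
  exact h3

theorem isOpen_above (h : ℕ → ℕ) :
    IsOpen {p : Fan | fanLift True (fun n k => h n < k) p} := by
  have h1 : Continuous (fanLift true fun n k => decide (h n < k)) := by
    refine continuous_fanLift _ _ fun n => ?_
    refine tendsto_nhds_of_eventually_eq ?_
    filter_upwards [eventually_gt_atTop (h n)] with k hk
    simpa using hk
  have h2 := (isOpen_discrete {true}).preimage h1
  have h3 : {p : Fan | fanLift True (fun n k => h n < k) p} =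
      (fanLift true fun n k => decide (h n < k)) ⁻¹' {true} := by
    ext p
    rcases fan_cases p with rfl | ⟨n, k, rfl⟩
    · simp [fanLift_top]
    · simp [fanLift_pt]
  rwa [h3]

theorem no_fan {κ : Cardinal.{0}} (hκ : ℵ₀ ≤ κ) (hd : κ < dominatingNumber) {X : Type}
    [TopologicalSpace X] (hB : ∀ Ψ : X → ℕ → ℕ, USC Ψ → Bdd κ Ψ) : ¬ FanInCp X := by
  rintro ⟨e, he⟩
  let C : ℕ → X → Set ℕ := fun j x =>
    {k | ∃ i ≤ j, 1 / ((j : ℝ) + 1) ≤ |(e (pt i k)).1 x - (e top).1 x|}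
  have hpos : ∀ j : ℕ, (0 : ℝ) < 1 / ((j : ℝ) + 1) := fun j => by positivity
  have hev : ∀ x : X, Continuous fun p : Fan => (e p).1 x := fun x =>
    (continuous_apply x).comp (continuous_subtype_val.comp he.continuous)
  have hfin : ∀ j x, (C j x).Finite := by
    intro j x
    have h1 : C j x = ⋃ i ∈ Iic j, {k | 1 / ((j : ℝ) + 1) ≤ |(e (pt i k)).1 x - (e top).1 x|} := by
      ext k; simp [C]
    rw [h1]
    refine (finite_Iic j).biUnion fun i _ => ?_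
    have h2 := ((hev x).tendsto top).comp (tendsto_pt i)
    have h3 := (Metric.tendsto_nhds.1 h2) _ (hpos j)
    rw [← Nat.cofinite_eq_atTop, eventually_cofinite] at h3
    refine h3.subset fun k hk => ?_
    simp only [mem_ofPred_eq, Function.comp, Real.dist_eq, not_lt] at hk ⊢
    exact hk
  have hmono : ∀ j k x, j ≤ k → C j x ⊆ C k x := by
    rintro j k x hjk l ⟨i, hi, hl⟩
    refine ⟨i, hi.trans hjk, le_trans ?_ hl⟩
    exact Nat.one_div_le_one_div hjk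
  have hop : ∀ j l, IsOpen {x | l ∉ C j x} := by
    intro j l
    have h1 : {x | l ∉ C j x} =
        ⋂ i ∈ Iic j, {x | |(e (pt i l)).1 x - (e top).1 x| < 1 / ((j : ℝ) + 1)} := by
      ext x; simp [C]
    rw [h1]
    refine (finite_Iic j).isOpen_biInter fun i _ => ?_
    exact isOpen_lt (((e (pt i l)).2.sub (e top).2).abs) continuous_const
  obtain ⟨h, hh⟩ := gap hκ hd hB C hfin hmono hop
  obtain ⟨O, hO, hOe⟩ := he.isInducing.isOpen_iff.1 (isOpen_above h)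
  obtain ⟨O', hO', rfl⟩ := isOpen_induced_iff.1 hO
  have htop : (e top).1 ∈ O' := by
    have : top ∈ e ⁻¹' (Subtype.val ⁻¹' O') := by rw [hOe]; exact trivial
    exact this
  obtain ⟨I, u, hu, hI⟩ := isOpen_pi_iff.1 hO' _ htop
  have h4 : ∀ᶠ j : ℕ in atTop, ∀ x ∈ I, Metric.ball ((e top).1 x) (1 / ((j : ℝ) + 1)) ⊆ u x := by
    refine (eventually_all_finset I).2 fun x hx => ?_
    obtain ⟨ε, hε, hb⟩ := Metric.isOpen_iff.1 (hu x hx).1 _ (hu x hx).2
    filter_upwards [(tendsto_one_div_add_atTop_nhds_zero_nat (𝕜 := ℝ)).eventually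
      (gt_mem_nhds hε)] with j hj
    exact (Metric.ball_subset_ball hj.le).trans hb
  obtain ⟨n, hn⟩ := eventually_atTop.1 h4
  obtain ⟨j, l, hj, hl, hC⟩ := hh I n
  have h5 : (e (pt j l)).1 ∈ O' := by
    refine hI fun x hx => hn j hj x hx ?_
    have h6 := hC x hx
    simp only [C, mem_ofPred_eq, not_exists, not_and, not_le] at h6
    rw [Metric.mem_ball, Real.dist_eq]
    exact h6 j le_rfl
  have h7 : pt j l ∈ e ⁻¹' (Subtype.val ⁻¹' O') := h5
  rw [hOe] at h7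
  have h8 : h j < l := h7
  omega

/-- the region under a function -/
def under (y : ℕ → ℕ) : ℕ × ℕ → Bool := fun p => decide (p.2 ≤ y p.1)

def single (q : ℕ × ℕ) : ℕ × ℕ → Bool := fun p => decide (p = q)

theorem continuous_under : Continuous under := by
  refine continuous_pi fun p => ?_
  exact (continuous_of_discreteTopology (f := fun m : ℕ => decide (p.2 ≤ m))).comp
    (continuous_apply p.1)

theorem fan_of_D2 (h : D2) :
    ∃ (X : Type) (_ : TopologicalSpace X), T35Space X ∧ IsMenger X ∧ FanInCp X := by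
  obtain ⟨Y, hY, hdom⟩ := h
  let S : Set (ℕ × ℕ → Bool) := {x | (∃ y ∈ Y, under y = x) ∨ ∃ q, single q = x}
  have hS : PM S := by
    refine PM.of_two (W := ℕ × ℕ) hY.pm (pm_small ?_)
      (f := fun y : Y => (⟨under y.1, Or.inl ⟨y.1, y.2, rfl⟩⟩ : S))
      (f' := fun q => (⟨single q, Or.inr ⟨q, rfl⟩⟩ : S)) ?_ continuous_of_discreteTopology ?_
    · exact lt_of_le_of_lt mk_le_aleph0 aleph0_lt_dom
    · exact (continuous_under.comp continuous_subtype_val).subtype_mk _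
    · rintro ⟨x, ⟨y, hy, rfl⟩ | ⟨q, rfl⟩⟩
      · exact Or.inl ⟨⟨y, hy⟩, rfl⟩
      · exact Or.inr ⟨q, rfl⟩
  let f : ℕ → ℕ → {g : S → ℝ // Continuous g} := fun n k =>
    ⟨fun x => if x.1 (n, k) then 1 else 0,
      (continuous_of_discreteTopology (f := fun b : Bool => if b then (1 : ℝ) else 0)).comp
        ((continuous_apply (n, k)).comp continuous_subtype_val)⟩
  let z : {g : S → ℝ // Continuous g} := ⟨fun _ => 0, continuous_const⟩
  have hcont : Continuous (fanLift z f) := by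
    refine continuous_fanLift _ _ fun n => ?_
    refine tendsto_subtype_rng.2 (tendsto_pi_nhds.2 fun x => tendsto_nhds_of_eventually_eq ?_)
    rcases x with ⟨x, ⟨y, hy, rfl⟩ | ⟨q, rfl⟩⟩
    · filter_upwards [eventually_gt_atTop (y n)] with k hk
      simp [f, z, under, hk]
    · filter_upwards [eventually_gt_atTop q.2] with k hk
      have : (n, k) ≠ q := fun h => by rw [← h] at hk; exact lt_irrefl _ hk
      simp [f, z, single, this]
  have hev : ∀ x : S, Continuous fun g : {g : S → ℝ // Continuous g} => g.1 x := fun x =>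
    (continuous_apply x).comp continuous_subtype_val
  have hiso : ∀ (n k : ℕ) (p : Fan),
      (1 / 2 : ℝ) < (fanLift z f p).1 ⟨single (n, k), Or.inr ⟨_, rfl⟩⟩ → p = pt n k := by
    intro n k p hp
    rcases fan_cases p with rfl | ⟨n', k', rfl⟩
    · rw [fanLift_top] at hp
      norm_num [z] at hp
    · rw [fanLift_pt] at hp
      by_cases hq : (n', k') = (n, k)
      · obtain ⟨rfl, rfl⟩ := Prod.mk.inj hq
        rfl
      · norm_num [f, single, hq] at hp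
  have hself : ∀ n k : ℕ,
      (1 / 2 : ℝ) < (fanLift z f (pt n k)).1 ⟨single (n, k), Or.inr ⟨_, rfl⟩⟩ := by
    intro n k
    rw [fanLift_pt]
    norm_num [f, single]
  refine ⟨S, inferInstance, inferInstance, hS.isMenger, fanLift z f, ?_, ?_⟩
  · refine Topology.isInducing_iff_nhds.2 fun p => le_antisymm (hcont.tendsto p).le_comap ?_
    intro W hW
    rcases fan_cases p with rfl | ⟨n, k, rfl⟩
    · have h1 : ∀ n, ∃ b, ∀ k, b ≤ k → pt n k ∈ W := fun n =>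
        eventually_atTop.1 (tendsto_pt n hW)
      choose b hb using h1
      obtain ⟨y₁, hy₁, y₂, hy₂, hy⟩ := hdom b
      refine mem_comap.2 ⟨{g | g.1 ⟨under y₁, Or.inl ⟨_, hy₁, rfl⟩⟩ < 1 / 2} ∩
        {g | g.1 ⟨under y₂, Or.inl ⟨_, hy₂, rfl⟩⟩ < 1 / 2}, ?_, ?_⟩
      · refine IsOpen.mem_nhds ((isOpen_lt (hev _) continuous_const).inter
          (isOpen_lt (hev _) continuous_const)) ?_
        rw [fanLift_top]
        constructor <;> norm_num [z]
      · intro p hp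
        rcases fan_cases p with rfl | ⟨n, k, rfl⟩
        · exact mem_of_mem_nhds hW
        · rw [mem_preimage, fanLift_pt] at hp
          obtain ⟨h1, h2⟩ := hp
          refine hb n k ?_
          by_contra hk
          rcases hy n with h3 | h3
          · have : k ≤ y₁ n := by omega
            norm_num [f, under, this] at h1
          · have : k ≤ y₂ n := by omega
            norm_num [f, under, this] at h2
    · refine mem_comap.2 ⟨{g | 1 / 2 < g.1 ⟨single (n, k), Or.inr ⟨_, rfl⟩⟩}, ?_, ?_⟩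
      · exact IsOpen.mem_nhds (isOpen_lt continuous_const (hev _)) (hself n k)
      · intro p hp
        rw [hiso n k p hp]
        exact mem_of_mem_nhds hW
  · intro p q hpq
    rcases fan_cases p with rfl | ⟨n, k, rfl⟩
    · rcases fan_cases q with rfl | ⟨n, k, rfl⟩
      · rfl
      · exact hiso n k _ (hpq ▸ hself n k)
    · exact (hiso n k _ (hpq ▸ hself n k)).symm

end Pool.Agent.B8a914
end

-- merged part: Pool.Agent.Work.MP_b8a914_gt.C.C
section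
set_option autoImplicit false

open Cardinal Set Filter Topology

namespace Pool.Agent.B8a914

def Reap (R : Set (Set ℕ)) : Prop :=
  (∀ A ∈ R, A.Infinite) ∧ ∀ E : Set ℕ, ∃ A ∈ R, A ⊆ E ∨ Disjoint A E

noncomputable def nxt (A : Set ℕ) (n : ℕ) : ℕ := sInf {a | a ∈ A ∧ n ≤ a}

theorem nxt_spec {A : Set ℕ} (hA : A.Infinite) (n : ℕ) : nxt A n ∈ A ∧ n ≤ nxt A n := by
  obtain ⟨a, ha, hn⟩ := hA.exists_gt n
  exact Nat.sInf_mem (s := {a | a ∈ A ∧ n ≤ a}) ⟨a, ha, hn.le⟩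

theorem nxt_le {A : Set ℕ} {n a : ℕ} (ha : a ∈ A) (hn : n ≤ a) : nxt A n ≤ a :=
  Nat.sInf_le ⟨ha, hn⟩

theorem lemU {R : Set (Set ℕ)} (hR : Reap R) {X : Type} (Ψ : X → ℕ → ℕ) :
    (∀ h : ℕ → ℕ, ∃ x, ∃ A ∈ R, ∀ n, h n ≤ hull (Ψ x) n ∨ h n ≤ nxt A n) ∨ Bdd #R Ψ := by
  refine or_iff_not_imp_left.2 fun hcon => ?_
  push Not at hcon
  obtain ⟨h0, hh⟩ := hcon
  refine ⟨R, fun A m => hull h0 (nxt A (hull h0 m)), le_rfl, fun x => ?_⟩
  obtain ⟨A, hA, hE⟩ := hR.2 {a | ∃ n, n ≤ a ∧ a < hull h0 n ∧ hull (Ψ x) n < hull h0 n}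
  have hinf := hR.1 A hA
  rcases hE with hE | hE
  · refine ⟨⟨A, hA⟩, fun m => ?_⟩
    obtain ⟨h1, h2⟩ := nxt_spec hinf (hull h0 m)
    obtain ⟨n, hn1, hn2, hn3⟩ := hE h1
    have h3 : m ≤ n := by
      by_contra h4
      have := hull_mono h0 (not_le.1 h4).le
      omega
    have h5 := le_hull (Ψ x) h3
    have h6 := hull_mono h0 hn1
    change Ψ x m ≤ hull h0 (nxt A (hull h0 m))
    omega
  · obtain ⟨n, hn1, hn2⟩ := hh x A hA
    obtain ⟨h1, h2⟩ := nxt_spec hinf n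
    have h3 := le_hull h0 (le_refl n)
    exact absurd ⟨n, h2, hn2.trans_le h3, hn1.trans_le h3⟩ (Set.disjoint_left.1 hE h1)

theorem allBdd_of_reap {R : Set (Set ℕ)} (hR : Reap R) (hd : #R < dominatingNumber) (h : ¬ D2) :
    AllBdd #R := by
  intro Y hY
  refine (lemU hR fun y : Y => y.1).resolve_left fun hc => h ?_
  let W : Set (ℕ → ℕ) := range fun A : R => nxt A
  let S : Set (ℕ → ℕ) := hull '' Y ∪ W
  refine ⟨S, PM.isMenger ?_, fun g => ?_⟩
  · refine PM.of_two (W := W) hY.pm (pm_small (mk_range_le.trans_lt hd))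
      (f := fun y : Y => (⟨hull y.1, Or.inl ⟨y.1, y.2, rfl⟩⟩ : S))
      (f' := fun w => (⟨w.1, Or.inr w.2⟩ : S)) ?_ ?_ ?_
    · exact (continuous_hull.comp continuous_subtype_val).subtype_mk _
    · exact continuous_subtype_val.subtype_mk _
    · rintro ⟨x, ⟨y, hy, rfl⟩ | hx⟩
      · exact Or.inl ⟨⟨y, hy⟩, rfl⟩
      · exact Or.inr ⟨⟨x, hx⟩, rfl⟩
  · obtain ⟨y, A, hA, hn⟩ := hc g
    exact ⟨hull y.1, Or.inl ⟨y.1, y.2, rfl⟩, nxt A, Or.inr ⟨⟨A, hA⟩, rfl⟩, hn⟩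

theorem exists_blk {p : ℕ → ℕ} (hp : StrictMono p) (h0 : p 0 = 0) :
    ∃ blk : ℕ → ℕ, (∀ i, p (blk i) ≤ i ∧ i < p (blk i + 1)) ∧
      ∀ i j, p j ≤ i → i < p (j + 1) → blk i = j := by
  classical
  have hex : ∀ i, ∃ j, i < p (j + 1) := fun i => ⟨i, hp.id_le (i + 1)⟩
  have h1 : ∀ i, p (Nat.find (hex i)) ≤ i ∧ i < p (Nat.find (hex i) + 1) := by
    intro i
    refine ⟨?_, Nat.find_spec (hex i)⟩
    rcases Nat.eq_zero_or_pos (Nat.find (hex i)) with h | h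
    · rw [h, h0]; exact Nat.zero_le _
    · have h2 := Nat.find_min (hex i) (Nat.sub_lt h Nat.one_pos)
      rw [Nat.sub_add_cancel h] at h2
      exact not_lt.1 h2
  refine ⟨fun i => Nat.find (hex i), h1, fun i j h2 h3 => ?_⟩
  have h4 := hp.lt_iff_lt.1 ((h1 i).1.trans_lt h3)
  have h5 := hp.lt_iff_lt.1 (h2.trans_lt (h1 i).2)
  change Nat.find (hex i) = j
  omega

theorem intervals {ι : Type} (hι : #ι < dominatingNumber) (G0 : ι → ℕ → ℕ) :
    ∃ p : ℕ → ℕ, StrictMono p ∧ p 0 = 0 ∧ ∀ i, {j | G0 i (p j) < p (j + 1)}.Infinite := by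
  let G : ι → ℕ → ℕ := fun i => hull fun m => G0 i m + 1
  obtain ⟨w0, hw0⟩ := not_dom hι fun i m => G i (G i m)
  let w : ℕ → ℕ := fun m => hull w0 m + m + 1
  have hw : Monotone w := fun a b hab => by
    have := hull_mono w0 hab
    simp only [w]
    omega
  let p : ℕ → ℕ := fun j => Nat.rec 0 (fun _ a => w a) j
  have hps : ∀ j, p (j + 1) = w (p j) := fun _ => rfl
  have hp : StrictMono p := strictMono_nat_of_lt_succ fun j => by
    rw [hps]; simp only [w]; omega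
  obtain ⟨blk, hb, -⟩ := exists_blk hp rfl
  refine ⟨p, hp, rfl, fun i => Set.infinite_of_forall_exists_gt fun j0 => ?_⟩
  obtain ⟨m, hm1, hm2⟩ := hw0 i (p (j0 + 1))
  obtain ⟨h1, h2⟩ := hb m
  have h3 : j0 + 1 < blk m + 1 := hp.lt_iff_lt.1 (hm1.trans_lt h2)
  have hG : ∀ a, G0 i a < G i a := fun a => le_hull (fun m => G0 i m + 1) (le_refl a)
  have hGm : Monotone (G i) := hull_mono _
  by_cases h4 : G i (p (blk m)) ≤ p (blk m + 1)
  · exact ⟨blk m, (hG _).trans_le h4, by omega⟩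
  · refine ⟨blk m + 1, ?_, by omega⟩
    have h5 : p (blk m + 1) ≤ G i m := (not_le.1 h4).le.trans (hGm h1)
    have h6 := hGm h5
    have h7 : w0 m ≤ w m := by
      have := le_hull w0 (le_refl m)
      simp only [w]
      omega
    have h8 := hw h2.le
    have h9 := hG (p (blk m + 1))
    change G0 i (p (blk m + 1)) < p (blk m + 1 + 1)
    rw [hps (blk m + 1)]
    change G i (G i m) < w0 m at hm2
    omega

theorem exists_base : ∃ (U : Ultrafilter ℕ) (B : Set (Set ℕ)), (∀ s ∈ U, s.Infinite) ∧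
    (∀ b ∈ B, b ∈ U) ∧ (∀ s ∈ U, ∃ b ∈ B, b ⊆ s) ∧ #B = ultrafilterNumber := by
  have : ultrafilterNumber ∈ {c | ∃ (U : Ultrafilter ℕ) (B : Set (Set ℕ)), (∀ s ∈ U, s.Infinite) ∧
      (∀ b ∈ B, b ∈ U) ∧ (∀ s ∈ U, ∃ b ∈ B, b ⊆ s) ∧ #B = c} :=
    csInf_mem ⟨_, hyperfilter ℕ, {s | s ∈ hyperfilter ℕ},
      fun _ hs hf => hf.notMem_hyperfilter hs, fun _ hb => hb, fun s hs => ⟨s, hs, Subset.rfl⟩, rfl⟩
  exact this

theorem exists_reap_u : ∃ R, Reap R ∧ #R = ultrafilterNumber := by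
  obtain ⟨U, B, h1, h2, h3, h4⟩ := exists_base
  refine ⟨B, ⟨fun A hA => h1 A (h2 A hA), fun E => ?_⟩, h4⟩
  rcases U.mem_or_compl_mem E with h | h
  · obtain ⟨b, hb, hbE⟩ := h3 E h
    exact ⟨b, hb, Or.inl hbE⟩
  · obtain ⟨b, hb, hbE⟩ := h3 _ h
    exact ⟨b, hb, Or.inr (subset_compl_iff_disjoint_right.1 hbE)⟩

theorem aubrey {R : Set (Set ℕ)} (hR : Reap R) (hd : #R < dominatingNumber) :
    ultrafilterNumber < dominatingNumber := by
  have hl : #(List R) < dominatingNumber :=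
    (mk_list_le_max R).trans_lt (max_lt aleph0_lt_dom hd)
  obtain ⟨p, hp, h0, hL⟩ := intervals hl fun l m => (l.map fun A : R => nxt A m).sum
  obtain ⟨blk, -, hb⟩ := exists_blk hp h0
  let b : List R → Set ℕ := fun l => {j | ∀ A ∈ l, ∃ a ∈ (A : Set ℕ), p j ≤ a ∧ a < p (j + 1)}
  have hbinf : ∀ l, (b l).Infinite := by
    intro l
    refine (hL l).mono fun j hj A hA => ?_
    obtain ⟨h1, h2⟩ := nxt_spec (hR.1 A A.2) (p j)
    refine ⟨_, h1, h2, lt_of_le_of_lt ?_ hj⟩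
    exact List.single_le_sum (fun _ _ => Nat.zero_le _) _ (List.mem_map.2 ⟨A, hA, rfl⟩)
  have happ : ∀ l l', b (l ++ l') ⊆ b l ∩ b l' := fun l l' j hj =>
    ⟨fun A hA => hj A (List.mem_append_left _ hA), fun A hA => hj A (List.mem_append_right _ hA)⟩
  let F : Filter ℕ :=
    { sets := {s | ∃ l, b l ⊆ s}
      univ_sets := ⟨[], subset_univ _⟩
      sets_of_superset := fun ⟨l, hl⟩ h => ⟨l, hl.trans h⟩
      inter_sets := fun ⟨l, hl⟩ ⟨l', hl'⟩ =>
        ⟨l ++ l', (happ l l').trans (inter_subset_inter hl hl')⟩ }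
  have hF : ∀ s, s ∈ F ↔ ∃ l, b l ⊆ s := fun _ => Iff.rfl
  have hU : ∀ s, sᶜ ∉ F ↔ s ∈ F := by
    intro s
    constructor
    · intro hs
      obtain ⟨A, hA, hE⟩ := hR.2 (blk ⁻¹' s)
      rcases hE with hE | hE
      · refine (hF s).2 ⟨[⟨A, hA⟩], fun j hj => ?_⟩
        obtain ⟨a, ha, h1, h2⟩ := hj _ (List.mem_singleton_self _)
        have := hE ha
        rwa [mem_preimage, hb a j h1 h2] at this
      · refine absurd ((hF sᶜ).2 ⟨[⟨A, hA⟩], fun j hj (hjs : j ∈ s) => ?_⟩) hs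
        obtain ⟨a, ha, h1, h2⟩ := hj _ (List.mem_singleton_self _)
        refine Set.disjoint_left.1 hE ha ?_
        rwa [mem_preimage, hb a j h1 h2]
    · rintro ⟨l, hl⟩ ⟨l', hl'⟩
      obtain ⟨j, hj⟩ := (hbinf (l ++ l')).nonempty
      exact hl' (happ l l' hj).2 (hl (happ l l' hj).1)
  refine lt_of_le_of_lt (csInf_le' ⟨Ultrafilter.ofComplNotMemIff F hU, range b, ?_, ?_, ?_, rfl⟩)
    (mk_range_le.trans_lt hl)
  · rintro s ⟨l, hl⟩
    exact (hbinf l).mono hl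
  · rintro _ ⟨l, rfl⟩
    exact ⟨l, Subset.rfl⟩
  · rintro s ⟨l, hl⟩
    exact ⟨b l, mem_range_self l, hl⟩

def Good (g y : ℕ → ℕ) : Prop := ∃ n, (∀ i < n, y i ≤ n) ∧ ∀ i, n ≤ i → i ≤ g n → y i = 0

theorem blocks (hR : ∀ R, Reap R → ¬ #R < dominatingNumber) {ι : Type}
    (hι : #ι < dominatingNumber) (g : ι → ℕ → ℕ) (h : ℕ → ℕ) :
    ∃ y : Bool → ℕ → ℕ, (∀ n, h n ≤ y true n ∨ h n ≤ y false n) ∧ ∀ i s, Good (g i) (y s) := by
  classical
  obtain ⟨p, hp, h0, hL⟩ := intervals hι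
    fun i m => g i (max m (hull h m)) + max m (hull h m)
  obtain ⟨blk, -, hb⟩ := exists_blk hp h0
  let L : ι → Set ℕ := fun i =>
    {j | g i (max (p j) (hull h (p j))) + max (p j) (hull h (p j)) < p (j + 1)}
  have h1 : ∃ E : Set ℕ, ∀ i, ¬ L i ⊆ E ∧ ¬ Disjoint (L i) E := by
    by_contra hc
    push Not at hc
    refine hR (range L) ⟨?_, fun E => ?_⟩ (mk_range_le.trans_lt hι)
    · rintro _ ⟨i, rfl⟩
      exact hL i
    · obtain ⟨i, hi⟩ := hc E
      exact ⟨L i, mem_range_self i, or_iff_not_imp_left.2 hi⟩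
  obtain ⟨E, hE⟩ := h1
  have key : ∀ (E' : Set ℕ) (i : ι) (j : ℕ), j ∈ L i → j ∉ E' →
      Good (g i) fun a => if blk a ∈ E' then h a else 0 := by
    intro E' i j hj hjE
    have hj' : g i (max (p j) (hull h (p j))) + max (p j) (hull h (p j)) < p (j + 1) := hj
    have h2 := le_max_left (p j) (hull h (p j))
    have h3 := le_max_right (p j) (hull h (p j))
    refine ⟨max (p j) (hull h (p j)), fun a ha => ?_, fun a ha1 ha2 => ?_⟩
    · by_cases h4 : p j ≤ a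
      · simp [hb a j h4 (by omega), hjE]
      · have h5 := le_hull h (not_le.1 h4).le
        by_cases h6 : blk a ∈ E'
        · simp only [h6, if_true]; omega
        · simp [h6]
    · simp [hb a j (by omega) (by omega), hjE]
  refine ⟨fun s a => if blk a ∈ (if s then E else Eᶜ) then h a else 0, fun n => ?_, fun i s => ?_⟩
  · by_cases h2 : blk n ∈ E
    · left; simp [h2]
    · right; simp [h2]
  · cases s
    · obtain ⟨j, hj1, hj2⟩ := Set.not_disjoint_iff.1 (hE i).2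
      exact key _ i j hj1 (by simpa using hj2)
    · obtain ⟨j, hj1, hj2⟩ := Set.not_subset.1 (hE i).1
      exact key _ i j hj1 (by simpa using hj2)

def small (n : ℕ) : Set (ℕ → ℕ) := {f | (∀ i < n, f i ≤ n) ∧ ∀ i, n ≤ i → f i = 0}

theorem small_finite (n : ℕ) : (small n).Finite := by
  refine (Set.finite_range fun (s : Fin n → Fin (n + 1)) (i : ℕ) =>
    if h : i < n then (s ⟨i, h⟩ : ℕ) else 0).subset ?_
  rintro f ⟨h1, h2⟩
  refine ⟨fun i => ⟨f i, Nat.lt_succ_of_le (h1 i i.2)⟩, funext fun i => ?_⟩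
  by_cases h : i < n
  · simp [h]
  · simp [h, h2 i (not_lt.1 h)]

theorem D2_of_no_reap (hR : ∀ R, Reap R → ¬ #R < dominatingNumber) : D2 := by
  classical
  obtain ⟨ι, G, hι, hG⟩ := exists_ptdom
  obtain ⟨φ⟩ := Cardinal.eq.1 ((mk_ord_toType dominatingNumber).trans hι.symm)
  let T := dominatingNumber.ord.ToType
  let g : T → ℕ → ℕ := fun a => G (φ a)
  have hg : ∀ f : ℕ → ℕ, ∃ a, ∀ n, f n ≤ g a n := fun f => by
    obtain ⟨i, hi⟩ := hG f
    exact ⟨φ.symm i, by simpa [g] using hi⟩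
  have hIio : ∀ a : T, #(Iio a) < dominatingNumber := fun a => by
    have h1 := mk_Iio_lt a (by simp [T])
    simpa [T] using h1
  choose y hy1 hy2 using fun a : T => blocks hR (hIio a) (fun b : Iio a => g b) (g a)
  let Q : Set (ℕ → ℕ) := ⋃ n, small n
  have hQ : Q.Countable := countable_iUnion fun n => (small_finite n).countable
  obtain ⟨e, he⟩ := hQ.exists_eq_range ⟨0, mem_iUnion.2 ⟨0, by simp [small]⟩⟩
  let Y : Set (ℕ → ℕ) := range e ∪ range fun q : T × Bool => y q.1 q.2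
  refine ⟨Y, PM.isMenger fun Ψ hΨ => ?_, fun h => ?_⟩
  · have h1 : ∀ t, ∃ m, ∀ z : Y, (∀ i < m, z.1 i = e t i) →
        Ψ z t ≤ Ψ ⟨e t, Or.inl (mem_range_self t)⟩ t := by
      intro t
      obtain ⟨O, hO, hOe⟩ := isOpen_induced_iff.1 (hΨ t (Ψ ⟨e t, Or.inl (mem_range_self t)⟩ t))
      have h2 : ∀ z : Y, z.1 ∈ O ↔ Ψ z t ≤ Ψ ⟨e t, Or.inl (mem_range_self t)⟩ t := fun z => by
        have : z ∈ Subtype.val ⁻¹' O ↔ z ∈ {x | Ψ x t ≤ Ψ ⟨e t, Or.inl (mem_range_self t)⟩ t} := by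
          rw [hOe]
        exact this
      obtain ⟨m, hm⟩ := exists_cyl hO ((h2 ⟨e t, Or.inl (mem_range_self t)⟩).2 le_rfl)
      exact ⟨m, fun z hz => (h2 z).1 (hm _ hz)⟩
    choose m hm using h1
    have h2 : ∀ n, ∃ b, ∀ q ∈ small n, ∃ t, e t = q ∧ m t ≤ b := by
      intro n
      have h3 : ∀ q : small n, ∃ t, e t = q := fun q => by
        have : q.1 ∈ range e := he ▸ mem_iUnion.2 ⟨n, q.2⟩
        exact this
      choose t ht using h3
      have : Finite (small n) := small_finite n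
      obtain ⟨b, hb⟩ := (Set.finite_range fun q => m (t q)).bddAbove
      exact ⟨b, fun q hq => ⟨t ⟨q, hq⟩, ht _, hb ⟨_, rfl⟩⟩⟩
    choose b hb using h2
    obtain ⟨a, ha⟩ := hg b
    have h4 : #(Option (Iio a) × Bool) < dominatingNumber := by
      rw [mk_prod, lift_id, lift_id, mk_option]
      refine mul_lt_of_lt aleph0_lt_dom.le (add_lt_of_lt aleph0_lt_dom.le (hIio a) ?_) ?_
      · exact one_lt_aleph0.trans aleph0_lt_dom
      · exact (lt_aleph0_of_finite _).trans aleph0_lt_dom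
    obtain ⟨g', hg'⟩ := not_dom h4 fun q =>
      Ψ ⟨y (q.1.elim a Subtype.val) q.2, Or.inr ⟨(_, _), rfl⟩⟩
    refine ⟨fun t => max (Ψ ⟨e t, Or.inl (mem_range_self t)⟩ t) (g' t), ?_⟩
    rintro ⟨z, ⟨t, rfl⟩ | ⟨⟨c, s⟩, rfl⟩⟩
    · exact ⟨t, le_max_left _ _⟩
    · rcases lt_trichotomy a c with hac | rfl | hac
      · obtain ⟨n, hn1, hn2⟩ := hy2 c ⟨a, hac⟩ s
        obtain ⟨t, ht1, ht2⟩ := hb n (fun i => if i < n then y c s i else 0)
          ⟨fun i hi => by simpa [hi] using hn1 i hi, fun i hi => by simp [not_lt.2 hi]⟩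
        refine ⟨t, (hm t _ fun i hi => ?_).trans (le_max_left _ _)⟩
        rw [ht1]
        by_cases h5 : i < n
        · simp [h5]
        · simp only [h5, if_false]
          exact hn2 i (not_lt.1 h5) (hi.le.trans (ht2.trans (ha n)))
      · obtain ⟨n, -, hn⟩ := hg' (none, s) 0
        exact ⟨n, hn.le.trans (le_max_right _ _)⟩
      · obtain ⟨n, -, hn⟩ := hg' (some ⟨c, hac⟩, s) 0
        exact ⟨n, hn.le.trans (le_max_right _ _)⟩
  · obtain ⟨a, ha⟩ := hg h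
    refine ⟨y a true, Or.inr ⟨(a, true), rfl⟩, y a false, Or.inr ⟨(a, false), rfl⟩, fun n => ?_⟩
    exact (hy1 a n).imp (ha n).trans (ha n).trans

/-- the small bound -/
def SB : Prop := ultrafilterNumber < dominatingNumber ∧ AllBdd ultrafilterNumber

theorem SB_of_not_D2 (h : ¬ D2) : SB := by
  have h1 : ultrafilterNumber < dominatingNumber := by
    by_contra hc
    exact h (D2_of_no_reap fun R hR hd => hc (aubrey hR hd))
  obtain ⟨R, hR, hu⟩ := exists_reap_u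
  exact ⟨h1, hu ▸ allBdd_of_reap hR (hu ▸ h1) h⟩

end Pool.Agent.B8a914
end

-- merged part: Pool.Agent.Work.MP_b8a914_gt.C.D
section
set_option autoImplicit false

open Cardinal Set Filter Topology

namespace Pool.Agent.B8a914

theorem exists_emb : ∃ e : (ℕ → ℕ) → ℝ, IsEmbedding e := by
  obtain ⟨f, -, hf, hi⟩ := isClosed_univ.exists_nat_bool_injection_of_not_countable (α := ℝ)
    not_countable_real
  have h1 : IsEmbedding f := (hf.isClosedEmbedding hi).isEmbedding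
  let c : (ℕ → ℕ) → ℕ → Bool := fun y t => decide (y t.unpair.1 = t.unpair.2)
  have hc : Continuous c := continuous_pi fun t =>
    (continuous_of_discreteTopology (f := fun m : ℕ => decide (m = t.unpair.2))).comp
      (continuous_apply t.unpair.1)
  have hci : ∀ (y z : ℕ → ℕ) (n : ℕ), c z (Nat.pair n (y n)) = true → z n = y n := by
    intro y z n h
    simpa [c] using h
  have h2 : IsEmbedding c := by
    refine ⟨isInducing_iff_nhds.2 fun y => le_antisymm (hc.tendsto y).le_comap ?_, ?_⟩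
    · change Tendsto (fun z : ℕ → ℕ => z) (comap c (𝓝 (c y))) (𝓝 y)
      refine tendsto_pi_nhds.2 fun n => tendsto_nhds_of_eventually_eq ?_
      refine mem_comap.2 ⟨{x | x (Nat.pair n (y n)) = true}, ?_, fun z hz => hci y z n hz⟩
      have h3 : IsOpen ((fun x : ℕ → Bool => x (Nat.pair n (y n))) ⁻¹' {true}) :=
        (isOpen_discrete {true}).preimage (continuous_apply _)
      refine h3.mem_nhds ?_
      simp [c]
    · intro y z h
      funext n
      refine (hci y z n ?_).symm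
      rw [← h]
      simp [c]
  exact ⟨f ∘ c, h1.comp h2⟩

theorem pm_image {X Z : Type} [TopologicalSpace X] [TopologicalSpace Z] {e : X → Z}
    (he : Continuous e) {Y : Set X} (hY : PM Y) : PM (e '' Y) := by
  refine hY.of_surj (f := fun y => ⟨e y.1, y.1, y.2, rfl⟩)
    ((he.comp continuous_subtype_val).subtype_mk _) ?_
  rintro ⟨_, y, hy, rfl⟩
  exact ⟨⟨y, hy⟩, rfl⟩

theorem exists_inv {e : (ℕ → ℕ) → ℝ} (he : IsEmbedding e) (Y : Set (ℕ → ℕ)) :
    ∃ Ψ : e '' Y → ℕ → ℕ, USC Ψ ∧ ∀ y (hy : y ∈ Y), Ψ ⟨e y, y, hy, rfl⟩ = y := by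
  refine ⟨fun z => he.toHomeomorph.symm ⟨z.1, image_subset_range _ _ z.2⟩,
    usc_of_continuous (he.toHomeomorph.symm.continuous.comp
      (continuous_subtype_val.subtype_mk _)), fun y hy => ?_⟩
  exact he.toHomeomorph.symm_apply_eq.2 (Subtype.ext rfl)

theorem add_le_of_cover {ι : Type} (Y : ι → Set (ℕ → ℕ)) (hY : ∀ i, PM (Y i))
    (hc : ∀ f, ∃ i, f ∈ Y i) : addMenger ≤ #ι := by
  obtain ⟨e, he⟩ := exists_emb
  refine le_trans (b := #(range fun i => e '' Y i))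
    (csInf_le' ⟨range fun i => e '' Y i, ?_, ?_, rfl⟩) mk_range_le
  · rintro _ ⟨i, rfl⟩
    exact (pm_image he.continuous (hY i)).isMenger
  · have h1 : ⋃₀ (range fun i => e '' Y i) = e '' Set.univ := by
      rw [sUnion_range, ← image_iUnion]
      congr 1
      exact eq_univ_of_forall fun f => mem_iUnion.2 (hc f)
    rw [h1]
    intro hM
    obtain ⟨Ψ, hΨ, hi⟩ := exists_inv he Set.univ
    obtain ⟨g, hg⟩ := hM.pm Ψ hΨ
    obtain ⟨n, hn⟩ := hg ⟨e fun n => g n + 1, _, mem_univ _, rfl⟩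
    rw [hi _ (mem_univ _)] at hn
    omega

theorem pm_unit : PM Unit := pm_small ((lt_aleph0_of_finite _).trans aleph0_lt_dom)

theorem add_le_dom : addMenger ≤ dominatingNumber := by
  obtain ⟨ι, G, hι, hG⟩ := exists_ptdom
  rw [← hι]
  refine add_le_of_cover (fun i => down fun _ : Unit => G i)
    (fun i => pm_unit.down (usc_of_continuous continuous_const)) fun f => ?_
  obtain ⟨i, hi⟩ := hG f
  exact ⟨i, (), hi⟩

theorem exists_add : ∃ Y : Set (Set ℝ), (∀ y ∈ Y, IsMenger y) ∧ ¬ IsMenger (⋃₀ Y : Set ℝ) ∧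
    #Y = addMenger := by
  obtain ⟨e, he⟩ := exists_emb
  have : addMenger ∈ {c | ∃ Y : Set (Set ℝ), (∀ y ∈ Y, IsMenger y) ∧ ¬ IsMenger (⋃₀ Y : Set ℝ) ∧
      #Y = c} := by
    refine csInf_mem ⟨_, range fun f : ℕ → ℕ => e '' {f}, ?_, ?_, rfl⟩
    · rintro _ ⟨f, rfl⟩
      exact (pm_image he.continuous
        (pm_small ((lt_aleph0_of_finite _).trans aleph0_lt_dom))).isMenger
    · have h1 : ⋃₀ (range fun f : ℕ → ℕ => e '' {f}) = e '' Set.univ := by
        rw [sUnion_range, ← image_iUnion, iUnion_of_singleton]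
      rw [h1]
      intro hM
      obtain ⟨Ψ, hΨ, hi⟩ := exists_inv he Set.univ
      obtain ⟨g, hg⟩ := hM.pm Ψ hΨ
      obtain ⟨n, hn⟩ := hg ⟨e fun n => g n + 1, _, mem_univ _, rfl⟩
      rw [hi _ (mem_univ _)] at hn
      omega
  exact this

theorem SB_of_lt (h : ultrafilterNumber < addMenger) : SB := by
  refine ⟨h.trans_le add_le_dom, fun Y hY => ?_⟩
  obtain ⟨R, hR, hu⟩ := exists_reap_u
  rw [← hu] at h ⊢
  refine (lemU hR fun y : Y => y.1).resolve_left fun hc => absurd h (not_lt.2 ?_)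
  refine add_le_of_cover (fun A : R => down fun (y : Y) n => max (hull y.1 n) (nxt A n))
    (fun A => hY.pm.down (usc_of_continuous (continuous_pi fun n => ?_))) fun f => ?_
  · exact ((continuous_apply n).comp (continuous_hull.comp continuous_subtype_val)).max
      continuous_const
  · obtain ⟨y, A, hA, hn⟩ := hc f
    exact ⟨⟨A, hA⟩, y, fun n => le_max_iff.2 (hn n)⟩

theorem SB.dom_le_add (h : SB) : dominatingNumber ≤ addMenger := by
  by_contra hc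
  obtain ⟨Y, hY, hn, hadd⟩ := exists_add
  refine hn (PM.isMenger fun Ψ hΨ => ?_)
  have h1 : ∀ y : Y, Bdd ultrafilterNumber
      fun x : y.1 => Ψ ⟨x.1, subset_sUnion_of_mem y.2 x.2⟩ := fun y =>
    h.2.usc (hY y y.2).pm (hΨ.comp (continuous_subtype_val.subtype_mk _))
  choose J G hJ hG using h1
  have h2 : #(Σ y, J y) < dominatingNumber := by
    rw [mk_sigma]
    calc (Cardinal.sum fun y => #(J y)) ≤ Cardinal.sum fun _ : Y => ultrafilterNumber :=
          sum_le_sum _ _ hJ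
      _ = #Y * ultrafilterNumber := by simp
      _ < dominatingNumber := mul_lt_of_lt aleph0_lt_dom.le (hadd ▸ not_le.1 hc) h.1
  obtain ⟨g, hg⟩ := not_dom h2 fun p => G p.1 p.2
  refine ⟨g, ?_⟩
  rintro ⟨x, y, hy, hx⟩
  obtain ⟨i, hi⟩ := hG ⟨y, hy⟩ ⟨x, hx⟩
  obtain ⟨n, -, hn⟩ := hg ⟨_, i⟩ 0
  exact ⟨n, (hi n).trans hn.le⟩

theorem SB.no_fan (h : SB) (X : Type) [TopologicalSpace X] (hX : IsMenger X) : ¬ FanInCp X :=
  B8a914.no_fan (le_max_right ultrafilterNumber ℵ₀) (max_lt h.1 aleph0_lt_dom)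
    fun _ hΨ => (h.2.usc hX.pm hΨ).mono (le_max_left _ _)

theorem SB.cover (h : SB) (Y : Set (ℕ → ℕ)) (hY : IsMenger Y) :
    ∃ K : Set (Set (ℕ → ℕ)), (∀ k ∈ K, IsCompact k) ∧ #K < dominatingNumber ∧ Y ⊆ ⋃₀ K := by
  obtain ⟨ι, G, hι, hG⟩ := h.2 Y hY
  refine ⟨range fun i => {f | ∀ n, f n ≤ G i n}, ?_, (mk_range_le.trans hι).trans_lt h.1, ?_⟩
  · rintro _ ⟨i, rfl⟩
    exact isCompact_below _
  · intro y hy
    obtain ⟨i, hi⟩ := hG ⟨y, hy⟩
    exact ⟨_, mem_range_self i, hi⟩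

theorem not_D2_of_cover (h : ∀ Y : Set (ℕ → ℕ), IsMenger Y →
    ∃ K : Set (Set (ℕ → ℕ)), (∀ k ∈ K, IsCompact k) ∧ #K < dominatingNumber ∧ Y ⊆ ⋃₀ K) :
    ¬ D2 := by
  rintro ⟨Y, hY, hd⟩
  obtain ⟨K, hK, hc, hYK⟩ := h Y hY
  have h1 : ∀ k : K, ∃ g : ℕ → ℕ, ∀ f ∈ k.1, ∀ n, f n ≤ g n := by
    intro k
    have h2 : ∀ n, ∃ b, ∀ f ∈ k.1, f n ≤ b := fun n => by
      obtain ⟨b, hb⟩ := ((hK k k.2).image (continuous_apply n)).finite_of_discrete.bddAbove
      exact ⟨b, fun f hf => hb ⟨f, hf, rfl⟩⟩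
    choose g hg using h2
    exact ⟨g, fun f hf n => hg n f hf⟩
  choose G hG using h1
  have h3 : #(K × K) < dominatingNumber := by
    rw [mk_prod, lift_id]
    exact mul_lt_of_lt aleph0_lt_dom.le hc hc
  obtain ⟨g, hg⟩ := not_dom h3 fun p n => max (G p.1 n) (G p.2 n)
  obtain ⟨y₁, h₁, y₂, h₂, hy⟩ := hd g
  obtain ⟨k₁, hk₁, hy₁⟩ := hYK h₁
  obtain ⟨k₂, hk₂, hy₂⟩ := hYK h₂
  obtain ⟨n, -, hn⟩ := hg (⟨k₁, hk₁⟩, ⟨k₂, hk₂⟩) 0
  have h4 := hG ⟨k₁, hk₁⟩ y₁ hy₁ n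
  have h5 := hG ⟨k₂, hk₂⟩ y₂ hy₂ n
  rw [max_lt_iff] at hn
  have h6 := hn.1
  have h7 := hn.2
  rcases hy n with h8 | h8 <;> dsimp only at h6 h7 <;> omega

theorem SB.scheepers (h : SB) (Y : Set ℝ) (hY : IsMenger Y) : IsScheepers Y := by
  intro U hU hc
  obtain ⟨Ψ, hΨ, hV⟩ := exists_usc_of_covers U hU hc
  obtain ⟨ι, G, hι, hG⟩ := h.2.usc hY.pm hΨ
  have hl : #(List ι) < dominatingNumber :=
    (mk_list_le_max ι).trans_lt (max_lt aleph0_lt_dom (hι.trans_lt h.1))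
  obtain ⟨g, hg⟩ := not_dom hl fun l n => (l.map fun i => G i n).sum
  obtain ⟨V, hV1, hV2⟩ := hV g
  refine ⟨V, hV1, fun F hF => ?_⟩
  choose c hcG using hG
  obtain ⟨n, -, hn⟩ := hg (hF.toFinset.toList.map c) 0
  refine ⟨n, fun x hx => hV2 x n ((hcG x n).trans (le_trans ?_ hn.le))⟩
  refine List.single_le_sum (fun _ _ => Nat.zero_le _) _ (List.mem_map.2 ⟨c x, ?_, rfl⟩)
  exact List.mem_map.2 ⟨x, Finset.mem_toList.2 (hF.mem_toFinset.2 hx), rfl⟩

theorem IsScheepers.pair {X : Type} [TopologicalSpace X] (h : IsScheepers X) {Ψ : X → ℕ → ℕ}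
    (hΨ : USC Ψ) : ∃ g : ℕ → ℕ, ∀ x x', ∃ n, Ψ x n ≤ g n ∧ Ψ x' n ≤ g n := by
  obtain ⟨V, hV, hc⟩ := h (fun n => range fun k => {x | Ψ x n ≤ k})
    (by rintro n u ⟨k, rfl⟩; exact hΨ n k)
    (by
      intro n
      refine eq_univ_of_forall fun x => ⟨_, ⟨Ψ x n, rfl⟩, ?_⟩
      simp)
  have hb : ∀ n, ∃ b : ℕ, ∀ x ∈ ⋃₀ V n, Ψ x n ≤ b := by
    intro n
    have hk : ∀ v : V n, ∃ k, (v : Set X) = {x | Ψ x n ≤ k} := fun v => by
      obtain ⟨k, hk⟩ := (hV n).1 v.2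
      exact ⟨k, hk.symm⟩
    choose k hk using hk
    have : Finite (V n) := (hV n).2
    obtain ⟨b, hb⟩ := (Set.finite_range k).bddAbove
    refine ⟨b, fun x hx => ?_⟩
    obtain ⟨v, hv, hxv⟩ := hx
    have h1 := hk ⟨v, hv⟩
    have h2 : Ψ x n ≤ k ⟨v, hv⟩ := by
      have : x ∈ {x | Ψ x n ≤ k ⟨v, hv⟩} := h1 ▸ hxv
      exact this
    exact h2.trans (hb ⟨_, rfl⟩)
  choose g hg using hb
  refine ⟨g, fun x x' => ?_⟩
  obtain ⟨n, hn⟩ := hc {x, x'} (toFinite _)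
  exact ⟨n, hg n x (hn (by simp)), hg n x' (hn (by simp))⟩

theorem not_D2_of_scheepers (h : ∀ Y : Set ℝ, IsMenger Y → IsScheepers Y) : ¬ D2 := by
  rintro ⟨Y, hY, hd⟩
  obtain ⟨e, he⟩ := exists_emb
  obtain ⟨Ψ, hΨ, hi⟩ := exists_inv he Y
  obtain ⟨g, hg⟩ := (h _ (pm_image he.continuous hY.pm).isMenger).pair hΨ
  obtain ⟨y₁, h₁, y₂, h₂, hy⟩ := hd fun n => g n + 1
  obtain ⟨n, hn1, hn2⟩ := hg ⟨e y₁, y₁, h₁, rfl⟩ ⟨e y₂, y₂, h₂, rfl⟩
  rw [hi _ h₁] at hn1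
  rw [hi _ h₂] at hn2
  rcases hy n with h8 | h8 <;> omega

theorem criterion : List.TFAE [
    ∃ (X : Type) (_ : TopologicalSpace X), T35Space X ∧ IsMenger X ∧ FanInCp X,
    addMenger ≤ ultrafilterNumber,
    addMenger < dominatingNumber ∨ dominatingNumber ≤ ultrafilterNumber,
    ∃ Y : Set (ℕ → ℕ), IsMenger Y ∧ ¬ ∃ K : Set (Set (ℕ → ℕ)), (∀ k ∈ K, IsCompact k) ∧
      #K < dominatingNumber ∧ Y ⊆ ⋃₀ K,
    ∃ Y : Set ℝ, IsMenger Y ∧ ¬ IsScheepers Y] := by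
  have hD : ¬ SB → D2 := fun h => by_contra fun h' => h (SB_of_not_D2 h')
  tfae_have 1 → 2 := by
    rintro ⟨X, _, -, hX, hF⟩
    exact not_lt.1 fun h => (SB_of_lt h).no_fan X hX hF
  tfae_have 2 → 3 := by
    intro h
    rcases lt_or_ge addMenger dominatingNumber with h1 | h1
    · exact Or.inl h1
    · exact Or.inr (h1.trans h)
  tfae_have 3 → 4 := by
    intro h
    have h1 : ¬ SB := fun hS => h.elim (not_lt.2 hS.dom_le_add) (not_le.2 hS.1)
    by_contra hc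
    exact not_D2_of_cover (fun Y hY => by_contra fun h2 => hc ⟨Y, hY, h2⟩) (hD h1)
  tfae_have 4 → 5 := by
    rintro ⟨Y, hY, h⟩
    by_contra hc
    exact not_D2_of_scheepers (fun Y hY => by_contra fun h2 => hc ⟨Y, hY, h2⟩)
      (hD fun hS => h (hS.cover Y hY))
  tfae_have 5 → 1 := by
    rintro ⟨Y, hY, h⟩
    exact fan_of_D2 (hD fun hS => h (hS.scheepers Y hY))
  tfae_finish

end Pool.Agent.B8a914
end
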