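import Mathlib

set_option autoImplicit false

open Cardinal

namespace Pool.Agent.B8a914

/-- The covering property called Hurewicz in the problem file (the Menger property). -/
def IsMenger (X : Type) [TopologicalSpace X] : Prop :=
  ∀ U : ℕ → Set (Set X), (∀ n, ∀ u ∈ U n, IsOpen u) → (∀ n, ⋃₀ U n = Set.univ) →
    ∃ V : ℕ → Set (Set X), (∀ n, V n ⊆ U n ∧ (V n).Finite) ∧ (⋃ n, ⋃₀ V n) = Set.univ

/-- The Scheepers property: the finite selections can be made so that every finite set of points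
lies in the union of one of them. -/
def IsScheepers (X : Type) [TopologicalSpace X] : Prop :=
  ∀ U : ℕ → Set (Set X), (∀ n, ∀ u ∈ U n, IsOpen u) → (∀ n, ⋃₀ U n = Set.univ) →
    ∃ V : ℕ → Set (Set X), (∀ n, V n ⊆ U n ∧ (V n).Finite) ∧
      ∀ F : Set X, F.Finite → ∃ n, F ⊆ ⋃₀ V n

/-- The countable sequential fan, with the quotient topology. -/
abbrev Fan : Type :=
  Quot (fun p q : ℕ × OnePoint ℕ => p = q ∨ (p.2 = OnePoint.infty ∧ q.2 = OnePoint.infty))

/-- The fan embeds in the continuous real functions on `X` with the pointwise topology. -/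
def FanInCp (X : Type) [TopologicalSpace X] : Prop :=
  ∃ f : Fan → {g : X → ℝ // Continuous g}, Topology.IsEmbedding f

/-- The ultrafilter number: least size of a base of a nonprincipal ultrafilter on `ℕ`. -/
noncomputable def ultrafilterNumber : Cardinal.{0} :=
  sInf {c | ∃ (U : Ultrafilter ℕ) (B : Set (Set ℕ)), (∀ s ∈ U, s.Infinite) ∧ (∀ b ∈ B, b ∈ U) ∧
    (∀ s ∈ U, ∃ b ∈ B, b ⊆ s) ∧ #B = c}

/-- The dominating number. -/
noncomputable def dominatingNumber : Cardinal.{0} :=
  sInf {c | ∃ D : Set (ℕ → ℕ), (∀ g : ℕ → ℕ, ∃ f ∈ D, ∀ᶠ n in Filter.atTop, g n ≤ f n) ∧ #D = c}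

/-- The additivity of the Menger property: least size of a family of Menger sets of reals whose
union is not Menger. -/
noncomputable def addMenger : Cardinal.{0} :=
  sInf {c | ∃ Y : Set (Set ℝ), (∀ y ∈ Y, IsMenger y) ∧ ¬ IsMenger (⋃₀ Y : Set ℝ) ∧ #Y = c}

end Pool.Agent.B8a914
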